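import Pool.Agent.Helper4.CD.St

set_option autoImplicit false

namespace Pool.Agent.Helper24.CD

open Pool.Agent.Helper4.CD
open Module

set_option linter.unusedSectionVars false

variable {K : Type} [Field K] {V : Type} [AddCommGroup V] [Module K V] [FiniteDimensional K V] {κ : Type} [Finite κ]

/-- rows `S` without common kernel on `G`: `finrank G ≤ #S`. -/
private lemma card_ge (c : κ → Dual K V) (S : Set κ) (G : Submodule K V)
    (h : ∀ x ∈ G, (∀ k ∈ S, c k x = 0) → x = 0) : finrank K G ≤ Nat.card S := by
  classical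
  have : Fintype S := Fintype.ofFinite _
  let f : G →ₗ[K] (S → K) := LinearMap.pi fun k : S => (c k).comp G.subtype
  have hf : Function.Injective f := by
    rw [injective_iff_map_eq_zero]
    intro x hx
    apply Subtype.ext
    apply h x.1 x.2
    intro k hk
    have := congrFun hx ⟨k, hk⟩
    simpa [f] using this
  have h1 := LinearMap.finrank_le_finrank_of_injective hf
  rwa [finrank_fintype_fun_eq_card, ← Nat.card_eq_fintype_card] at h1

/-- `d ≤ #S + finrank ⨅_(k ∈ S) ker (c k)`. -/
private lemma codim_le (c : κ → Dual K V) (S : Set κ) :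
    finrank K V ≤ Nat.card S + finrank K (⨅ k ∈ S, LinearMap.ker (c k) : Submodule K V) := by
  classical
  have : Fintype S := Fintype.ofFinite _
  let f : V →ₗ[K] (S → K) := LinearMap.pi fun k : S => c k
  have hk : LinearMap.ker f = (⨅ k ∈ S, LinearMap.ker (c k) : Submodule K V) := by
    ext x
    simp only [LinearMap.mem_ker, Submodule.mem_iInf, f]
    constructor
    · intro hx k hk
      have := congrFun hx ⟨k, hk⟩
      simpa using this
    · intro hx
      funext k
      simpa using hx k.1 k.2
  have h1 := LinearMap.finrank_range_add_finrank_ker f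
  have h2 : finrank K (LinearMap.range f) ≤ Nat.card S := by
    refine le_trans (Submodule.finrank_le _) ?_
    rw [finrank_fintype_fun_eq_card, ← Nat.card_eq_fintype_card]
  rw [hk] at h1
  omega

theorem hFD : StFD := by
  intro K _ _ _ H d f c r u v hu hv
  classical
  obtain ⟨n, hn, hw⟩ := H d f c r u v hu hv
  refine ⟨n, ?_, hw⟩
  set C : Set (Fin f) := {k | c k u = r k ∧ c k v = r k} with hC
  set A : Set (Fin f) := {k | c k u = r k ∧ c k v ≠ r k} with hA
  set B : Set (Fin f) := {k | c k u ≠ r k ∧ c k v = r k} with hB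
  set G : Submodule K (Fin d → K) := ⨅ k ∈ C, LinearMap.ker (c k) with hG
  have memG : ∀ x, x ∈ G ↔ ∀ k ∈ C, c k x = 0 := by
    intro x
    simp only [hG, Submodule.mem_iInf, LinearMap.mem_ker]
  have h1 : finrank K (Fin d → K) ≤ Nat.card C + finrank K G := codim_le c C
  have h2 : finrank K G ≤ Nat.card A := by
    apply card_ge c A G
    intro x hx hxA
    apply hu.2
    intro k hk
    by_cases h : c k v = r k
    · exact (memG x).1 hx k ⟨hk, h⟩
    · exact hxA k ⟨hk, h⟩
  have h3 : finrank K G ≤ Nat.card B := by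
    apply card_ge c B G
    intro x hx hxB
    apply hv.2
    intro k hk
    by_cases h : c k u = r k
    · exact (memG x).1 hx k ⟨h, hk⟩
    · exact hxB k ⟨h, hk⟩
  have h4 : Nat.card C + Nat.card A + Nat.card B + Nat.card (Nei c r u v) ≤ f := by
    have e1 : Disjoint C A := by
      rw [Set.disjoint_left]; rintro k ⟨_, h⟩ ⟨_, h'⟩; exact h' h
    have e2 : Disjoint (C ∪ A) B := by
      rw [Set.disjoint_left]
      rintro k (⟨h, _⟩ | ⟨h, _⟩) ⟨h', _⟩ <;> exact h' h
    have e3 : Disjoint (C ∪ A ∪ B) (Nei c r u v) := by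
      rw [Set.disjoint_left]
      rintro k ((⟨h, _⟩ | ⟨h, _⟩) | ⟨_, h⟩) ⟨h1, h2⟩
      · exact absurd h h1.ne'
      · exact absurd h h1.ne'
      · exact absurd h h2.ne'
    have f1 : Nat.card C + Nat.card A = Nat.card (C ∪ A : Set (Fin f)) := by
      simp only [Nat.card_coe_set_eq]
      exact (Set.ncard_union_eq e1 (Set.toFinite _) (Set.toFinite _)).symm
    have f2 : Nat.card (C ∪ A : Set (Fin f)) + Nat.card B = Nat.card (C ∪ A ∪ B : Set (Fin f)) := by
      simp only [Nat.card_coe_set_eq]
      exact (Set.ncard_union_eq e2 (Set.toFinite _) (Set.toFinite _)).symm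
    have f3 : Nat.card (C ∪ A ∪ B : Set (Fin f)) + Nat.card (Nei c r u v) =
        Nat.card (C ∪ A ∪ B ∪ Nei c r u v : Set (Fin f)) := by
      simp only [Nat.card_coe_set_eq]
      exact (Set.ncard_union_eq e3 (Set.toFinite _) (Set.toFinite _)).symm
    rw [f1, f2, f3]
    have := Nat.card_le_card_of_injective (Subtype.val : (C ∪ A ∪ B ∪ Nei c r u v : Set (Fin f)) → Fin f)
      Subtype.val_injective
    rwa [Nat.card_eq_fintype_card (α := Fin f), Fintype.card_fin] at this
  have h5 : finrank K (Fin d → K) = d := by simp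
  have hn' : n ≤ finrank K G + Nat.card (Nei c r u v) := hn
  omega

end Pool.Agent.Helper24.CD
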